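import Pool.Agent.helper62.EN.SpecA

set_option autoImplicit false

/-!
# Row BLK of project EN: blocks of length `m`
-/

open scoped Topology
open MeasureTheory Filter Set

namespace Pool.Agent.EN

theorem BLK_step (H : ℕ → ℕ → ℝ) (hS : ∀ i a b, H i (a + b) ≤ H i a + H (i + a) b) (m s : ℕ) :
    ∀ (J i : ℕ), H i (J * m + s) ≤ (∑ j ∈ Finset.range J, H (i + j * m) m) + H (i + J * m) s := by
  intro J
  induction J with
  | zero => intro i; simp
  | succ J ih =>
    intro i
    have e1 : (J + 1) * m + s = m + (J * m + s) := by ring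
    have h1 := hS i m (J * m + s)
    have h2 := ih (i + m)
    have e2 : ∑ j ∈ Finset.range (J + 1), H (i + j * m) m
        = (∑ j ∈ Finset.range J, H (i + m + j * m) m) + H i m := by
      rw [Finset.sum_range_succ']
      congr 1
      · apply Finset.sum_congr rfl
        intro j _
        have : i + (j + 1) * m = i + m + j * m := by ring
        rw [this]
      · simp
    have e3 : i + (J + 1) * m = i + m + J * m := by ring
    rw [e1, e2, e3]
    linarith

theorem BLK_real (H : ℕ → ℕ → ℝ) (L : ℝ) (hL : 0 ≤ L)
    (hS : ∀ i a b, H i (a + b) ≤ H i a + H (i + a) b) (hN : ∀ i n, 0 ≤ H i n)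
    (hU : ∀ i n, H i n ≤ n * L) (m n : ℕ) (hm : 1 ≤ m) :
    m * H 0 n ≤ (∑ i ∈ Finset.range n, H i m) + 2 * m ^ 2 * L := by
  have hm0 : 0 < m := hm
  have key : ∀ q ∈ Finset.range m,
      H 0 n ≤ 2 * m * L + ∑ j ∈ Finset.range ((n - q) / m), H (q + j * m) m := by
    intro q hq
    have hq' : q < m := Finset.mem_range.mp hq
    have hmL : (q : ℝ) * L ≤ m * L := by
      apply mul_le_mul_of_nonneg_right _ hL
      exact_mod_cast hq'.le
    by_cases hqn : q ≤ n
    · have e1 : n = q + ((n - q) / m * m + (n - q) % m) := by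
        rw [Nat.div_add_mod' (n - q) m]; omega
      have h1 := hS 0 q ((n - q) / m * m + (n - q) % m)
      rw [← e1, zero_add] at h1
      have h2 := BLK_step H hS m ((n - q) % m) ((n - q) / m) q
      have h3 := hU 0 q
      have h4 := hU (q + (n - q) / m * m) ((n - q) % m)
      have h5 : (((n - q) % m : ℕ) : ℝ) * L ≤ m * L := by
        apply mul_le_mul_of_nonneg_right _ hL
        exact_mod_cast (Nat.mod_lt _ hm0).le
      linarith
    · have e1 : n - q = 0 := by omega
      have h1 := hU 0 n
      have h2 : (n : ℝ) * L ≤ q * L := by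
        apply mul_le_mul_of_nonneg_right _ hL
        exact_mod_cast (not_le.mp hqn).le
      have h3 : 0 ≤ (m : ℝ) * L := by positivity
      rw [e1]
      simp only [Nat.zero_div, Finset.range_zero, Finset.sum_empty, add_zero]
      linarith
  have hsum := Finset.sum_le_sum key
  rw [Finset.sum_const, Finset.card_range, nsmul_eq_mul, Finset.sum_add_distrib,
    Finset.sum_const, Finset.card_range, nsmul_eq_mul] at hsum
  have hfib : ∑ q ∈ Finset.range m, ∑ j ∈ Finset.range ((n - q) / m), H (q + j * m) m
      ≤ ∑ i ∈ Finset.range n, H i m := by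
    rw [← Finset.sum_fiberwise_of_maps_to (s := Finset.range n) (t := Finset.range m)
      (g := fun i => i % m) (fun i _ => Finset.mem_range.mpr (Nat.mod_lt _ hm0))]
    apply Finset.sum_le_sum
    intro q hq
    have hq' : q < m := Finset.mem_range.mp hq
    have hinj : ∀ x ∈ Finset.range ((n - q) / m), ∀ y ∈ Finset.range ((n - q) / m),
        q + x * m = q + y * m → x = y := by
      intro x _ y _ hxy
      exact Nat.eq_of_mul_eq_mul_right hm0 (Nat.add_left_cancel hxy)
    rw [← Finset.sum_image (f := fun i => H i m) (s := Finset.range ((n - q) / m))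
      (g := fun j => q + j * m) hinj]
    apply Finset.sum_le_sum_of_subset_of_nonneg
    · intro i hi
      obtain ⟨j, hj, rfl⟩ := Finset.mem_image.mp hi
      have hj' : j < (n - q) / m := Finset.mem_range.mp hj
      rw [Finset.mem_filter]
      constructor
      · rw [Finset.mem_range]
        have h1 : (j + 1) * m ≤ (n - q) / m * m := Nat.mul_le_mul_right m hj'
        have h2 : (n - q) / m * m ≤ n - q := Nat.div_mul_le_self _ _
        have h3 : (j + 1) * m = j * m + m := by ring
        omega
      · show (q + j * m) % m = q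
        rw [Nat.add_mul_mod_self_right]
        exact Nat.mod_eq_of_lt hq'
    · intro i _ _
      exact hN i m
  have e4 : (m : ℝ) * (2 * m * L) = 2 * m ^ 2 * L := by ring
  rw [e4] at hsum
  linarith

theorem BLK_proof (h1 : HSB_stmt) (h2 : HLG_stmt) : BLK_stmt := by
  intro X _ μ T p P m n hμ hT hP hm
  have hpr : ∀ i : ℕ, IsProbabilityMeasure (μ.map (T^[i])) := fun i =>
    Measure.isProbabilityMeasure_map (hT.iterate i).aemeasurable
  have hmm : ∀ i a : ℕ, (μ.map (T^[i])).map (T^[a]) = μ.map (T^[i + a]) := by
    intro i a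
    rw [Measure.map_map (hT.iterate a) (hT.iterate i), ← Function.iterate_add, add_comm a i]
  have h0 : μ.map (T^[0]) = μ := by
    rw [Function.iterate_zero]
    exact Measure.map_id
  have hmain := BLK_real (fun i k => Hn (μ.map (T^[i])) T P k) (Real.log p)
    (Real.log_natCast_nonneg p)
    (by
      intro i a b
      have := h1 X (μ.map (T^[i])) T p P a b (hpr i) hT hP
      rw [hmm i a] at this
      exact this)
    (fun i k => (h2 X (μ.map (T^[i])) T p P k (hpr i) hT hP).1)
    (fun i k => (h2 X (μ.map (T^[i])) T p P k (hpr i) hT hP).2)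
    m n hm
  simp only [h0] at hmain
  exact hmain

end Pool.Agent.EN
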