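import Pool.Agent.helper80.EN.Spec

set_option autoImplicit false

namespace Pool.Agent.helper80.EN

open Subgroup

universe u

/-- a subnormal subgroup that is not normal has a conjugate outside that normalises it. -/
theorem ZIP_conj {G : Type u} [Group G] (S K : Subgroup G) (hK : K.IsSubnormal)
    (hSK : K ≤ normalizer (S : Set G)) (hS : ¬ S.Normal) :
    S ≤ K → ∃ x : G, x ∉ normalizer (S : Set G) ∧ ∀ s ∈ S, x * s * x⁻¹ ∈ normalizer (S : Set G) := by
  induction hK with
  | top =>
    intro _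
    exact absurd (normalizer_eq_top_iff.1 (top_le_iff.1 hSK)) hS
  | step H K hle hK hN ih =>
    intro hSH
    by_cases h : K ≤ normalizer (S : Set G)
    · exact ih h (hSH.trans hle)
    · obtain ⟨x, hxK, hx⟩ := SetLike.not_le_iff_exists.1 h
      refine ⟨x, hx, fun s hs => hSK ?_⟩
      have h1 : x ∈ normalizer (H : Set G) :=
        (normal_subgroupOf_iff_le_normalizer hle).1 hN hxK
      exact (mem_normalizer_iff.1 h1 s).1 (hSH hs)

theorem ZIP_conj' {G : Type u} [Group G] (S : Subgroup G) (h : S.IsSubnormal) (hS : ¬ S.Normal) :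
    ∃ x : G, x ∉ normalizer (S : Set G) ∧ ∀ s ∈ S, x * s * x⁻¹ ∈ normalizer (S : Set G) := by
  cases h with
  | top => exact absurd (by infer_instance : (⊤ : Subgroup G).Normal) hS
  | step _ K hle hK hN =>
    exact ZIP_conj S K hK ((normal_subgroupOf_iff_le_normalizer hle).1 hN) hS hle

/-- subnormality in overgroups passes to conjugates. -/
theorem ZIP_sn {G : Type u} [Group G] (S : Subgroup G) (φ : G ≃* G)
    (h : ∀ H : Subgroup G, S ≤ H → H ≠ ⊤ → (S.subgroupOf H).IsSubnormal) (H : Subgroup G)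
    (hH : S.map φ.toMonoidHom ≤ H) (hT : H ≠ ⊤) : ((S.map φ.toMonoidHom).subgroupOf H).IsSubnormal := by
  have h1 : S ≤ H.comap φ.toMonoidHom := map_le_iff_le_comap.1 hH
  have h2 : H.comap φ.toMonoidHom ≠ ⊤ := by
    intro h3
    apply hT
    rw [eq_top_iff]
    intro g _
    have h4 : φ.symm g ∈ H.comap φ.toMonoidHom := by
      rw [h3]
      exact mem_top _
    have h5 : φ (φ.symm g) ∈ H := h4
    rwa [MulEquiv.apply_symm_apply] at h5
  have h3 := h _ h1 h2
  let g : H →* (H.comap φ.toMonoidHom) :=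
    (φ.symm.toMonoidHom.comp H.subtype).codRestrict _ (fun x => by
      show φ (φ.symm (x : G)) ∈ H
      rw [MulEquiv.apply_symm_apply]
      exact x.2)
  have h4 : (S.map φ.toMonoidHom).subgroupOf H = (S.subgroupOf (H.comap φ.toMonoidHom)).comap g := by
    ext x
    rw [mem_subgroupOf, mem_comap, mem_subgroupOf]
    show (x : G) ∈ S.map φ.toMonoidHom ↔ φ.symm (x : G) ∈ S
    constructor
    · rintro ⟨s, hs, hsx⟩
      have : φ s = (x : G) := hsx
      rw [← this, MulEquiv.symm_apply_apply]
      exact hs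
    · intro hx
      exact ⟨_, hx, φ.apply_symm_apply _⟩
  rw [h4]
  exact h3.comap g

theorem ZIP (hJSN : JSN_stmt.{u}) : ZIP_stmt.{u} := by
  intro G _ _ S
  induction S using WellFoundedGT.induction with
  | ind S ih =>
  intro hyp hns M K hM hK hSM hSK
  have hnn : ¬ S.Normal := fun h => hns h.isSubnormal
  have hN : normalizer (S : Set G) ≠ ⊤ := fun h => hnn (normalizer_eq_top_iff.1 h)
  obtain ⟨M0, hM0, hM0'⟩ := (eq_top_or_exists_le_coatom (normalizer (S : Set G))).resolve_left hN
  have key : ∀ K : Subgroup G, IsCoatom K → S ≤ K → K = M0 := by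
    intro K hK hSK
    by_cases hKN : K ≤ normalizer (S : Set G)
    · exact ((hK.le_iff.1 (hKN.trans hM0')).resolve_left hM0.1).symm
    have hsub := hyp K hSK hK.1
    have hnn' : ¬ (S.subgroupOf K).Normal := fun h =>
      hKN ((normal_subgroupOf_iff_le_normalizer hSK).1 h)
    obtain ⟨x, hx, hxs⟩ := ZIP_conj' _ hsub hnn'
    rw [← subgroupOf_normalizer_eq hSK] at hx hxs
    have hx1 : (x : G) ∉ normalizer (S : Set G) := fun h => hx (mem_subgroupOf.2 h)
    have hxs1 : ∀ s ∈ S, (x : G) * s * (x : G)⁻¹ ∈ normalizer (S : Set G) := by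
      intro s hs
      have := hxs ⟨s, hSK hs⟩ (mem_subgroupOf.2 hs)
      exact mem_subgroupOf.1 this
    let φ : G ≃* G := MulAut.conj (x : G)
    have hφ : ∀ g : G, φ g = (x : G) * g * (x : G)⁻¹ := fun g => rfl
    have hUN : S.map φ.toMonoidHom ≤ normalizer (S : Set G) := by
      rintro _ ⟨s, hs, rfl⟩
      exact hxs1 s hs
    have hUK : S.map φ.toMonoidHom ≤ K := by
      rintro _ ⟨s, hs, rfl⟩
      exact K.mul_mem (K.mul_mem x.2 (hSK hs)) (K.inv_mem x.2)
    have hTN : S ⊔ S.map φ.toMonoidHom ≤ normalizer (S : Set G) := sup_le le_normalizer hUN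
    have hlt : S < S ⊔ S.map φ.toMonoidHom := by
      refine lt_of_le_of_ne le_sup_left fun h => hx1 ?_
      have h1 : S.map φ.toMonoidHom ≤ S := sup_eq_left.1 h.symm
      have h2 : S.map φ.toMonoidHom = S := by
        apply eq_of_le_of_card_ge h1
        exact le_of_eq (Nat.card_congr (S.equivMapOfInjective φ.toMonoidHom φ.injective).toEquiv)
      exact mem_normalizer_iff_map_conj_eq.2 h2
    have hT := ih _ hlt ?_ ?_ K M0 hK hM0 (sup_le hSK hUK) (hTN.trans hM0')
    · exact hT
    · intro H hH hHT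
      have hSH : S ≤ H := le_sup_left.trans hH
      have hUH : S.map φ.toMonoidHom ≤ H := le_sup_right.trans hH
      rw [subgroupOf_sup hSH hUH]
      refine hJSN H _ _ (hyp H hSH hHT) (ZIP_sn S φ hyp H hUH hHT) ?_
      intro y hy s hs
      rw [mem_subgroupOf] at hy hs ⊢
      exact (mem_normalizer_iff.1 (hUN hy) _).1 hs
    · intro hT
      exact hns (IsSubnormal.step S _ le_sup_left hT
        ((normal_subgroupOf_iff_le_normalizer le_sup_left).2 hTN))
  rw [key M hM hSM, key K hK hSK]

end Pool.Agent.helper80.EN
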