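import Pool.Agent.helper80.EN.Spec2

/-!
# Row THC of project et (MP_43ab4e_al)
-/

set_option autoImplicit false

namespace Pool.Agent.helper80.EN

open Subgroup

universe u

theorem THC (h1 : TG_stmt.{u}) (h2 : LNA_stmt.{u}) : THC_stmt.{u} := by
  intro G V _ _ d hA g f τ hτ hf hg
  obtain ⟨-, -, h3, -, -, -, h7, -⟩ := h1 V d hA.tm
  have hcvx := (h2 V d hA.tm).1 f hf
  have hgg : ∀ n, g • g • f n = f (n + 2 * τ) := by
    intro n
    rw [hg, hg]
    congr 1
    ring
  ext x
  constructor
  · intro hx
    have hx' : d x (g • g • x) = 2 * d x (g • x) := hx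
    obtain ⟨m, ⟨k, rfl⟩, hm⟩ := h7 (Set.range f) hcvx ⟨f 0, 0, rfl⟩ x
    -- the general computation
    have key : ∀ h : G, ∀ s : ℤ, 1 ≤ s → (∀ n, h • f n = f (n + s)) →
        (d x (h • x) : ℤ) = 2 * (d x (f k) : ℤ) + s := by
      intro h s hs hh
      have e1 : (d (f k) (h • f k) : ℤ) = s := by
        rw [hh, hf, abs_sub_comm]
        rw [show k + s - k = s by ring, abs_of_pos (by omega)]
      have hne : f k ≠ h • f k := by
        intro he
        have : d (f k) (h • f k) = 0 := (hA.tm.eq _ _).mpr he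
        rw [this] at e1
        push_cast at e1
        omega
      have b1 : Bt d x (f k) (h • f k) := hm _ ⟨k + s, (hh k).symm⟩
      have b2 : Bt d (f k) (h • f k) (h • x) := by
        have b3 : Bt d x (f k) (f (k - s)) := hm _ ⟨_, rfl⟩
        have e2 : h • f (k - s) = f k := by rw [hh]; congr 1; ring
        unfold Bt at b3 ⊢
        have i1 := hA.iso h x (f k)
        have i2 := hA.iso h (f k) (f (k - s))
        have i3 := hA.iso h x (f (k - s))
        rw [e2] at i2 i3
        rw [hA.tm.symm (f k) (h • f k), hA.tm.symm (h • f k) (h • x), hA.tm.symm (f k) (h • x)]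
        omega
      obtain ⟨-, -, e3⟩ := h3 x (f k) (h • f k) (h • x) b1 b2 hne
      have e4 : d (h • f k) (h • x) = d x (f k) := by rw [hA.iso, hA.tm.symm]
      rw [e3, e4]
      push_cast
      rw [e1]
      ring
    have k1 := key g τ hτ hg
    have k2 := key (g * g) (2 * τ) (by omega) (by intro n; rw [mul_smul]; exact hgg n)
    rw [mul_smul] at k2
    have hz : d x (f k) = 0 := by
      have : (d x (g • g • x) : ℤ) = 2 * d x (g • x) := by exact_mod_cast hx'
      omega
    exact ⟨k, ((hA.tm.eq _ _).mp hz).symm⟩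
  · rintro ⟨n, rfl⟩
    show d (f n) (g • g • f n) = 2 * d (f n) (g • f n)
    have e1 : (d (f n) (g • g • f n) : ℤ) = 2 * τ := by
      rw [hgg, hf, abs_sub_comm]
      rw [show n + 2 * τ - n = 2 * τ by ring, abs_of_pos (by omega)]
    have e2 : (d (f n) (g • f n) : ℤ) = τ := by
      rw [hg, hf, abs_sub_comm]
      rw [show n + τ - n = τ by ring, abs_of_pos (by omega)]
    have : (d (f n) (g • g • f n) : ℤ) = ((2 * d (f n) (g • f n) : ℕ) : ℤ) := by
      push_cast
      rw [e1, e2]
    exact_mod_cast this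

end Pool.Agent.helper80.EN
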